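import Pool.Agent.L7h59.NC.Stm2

/-!
# Azumaya algebras: the regular representation is inner over the algebra
-/

set_option autoImplicit false

open Matrix TensorProduct

namespace Pool.Agent.L7h42.NC

open Pool.Agent.L7h59.NC

section

variable {C R X : Type} [CommRing C] [Ring R] [Algebra C R] [Fintype X] [DecidableEq X]
  (e : Module.Basis X C R)

omit [DecidableEq X] in
/-- Every element of `R ⊗ Rᵒᵖ` acts as `x ↦ ∑ i, v i * x * e i`. -/
theorem form (t : R ⊗[C] Rᵐᵒᵖ) : ∃ v : X → R, ∀ x : R,
    AlgHom.mulLeftRight C R t x = ∑ i, v i * x * e i := by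
  induction t using TensorProduct.induction_on with
  | zero => exact ⟨0, fun x => by simp⟩
  | tmul a b =>
    refine ⟨fun i => e.repr b.unop i • a, fun x => ?_⟩
    rw [AlgHom.mulLeftRight_apply]
    conv_lhs => rw [← e.sum_repr b.unop]
    rw [Finset.mul_sum]
    refine Finset.sum_congr rfl fun i _ => ?_
    rw [mul_smul_comm, smul_mul_assoc, smul_mul_assoc]
  | add s t hs ht =>
    obtain ⟨v, hv⟩ := hs
    obtain ⟨w, hw⟩ := ht
    refine ⟨v + w, fun x => ?_⟩
    rw [map_add, LinearMap.add_apply, hv, hw, ← Finset.sum_add_distrib]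
    refine Finset.sum_congr rfl fun i _ => ?_
    rw [Pi.add_apply, add_mul, add_mul]

/-- The matrix `(e j * e i)`. -/
noncomputable def wm : Matrix X X R := Matrix.of fun i j => e j * e i

theorem wm_mul (r : R) :
    Matrix.scalar X r * wm e = wm e * (Algebra.leftMulMatrix e r).map (algebraMap C R) := by
  ext i j
  rw [Matrix.scalar_apply, Matrix.diagonal_mul, Matrix.mul_apply]
  simp only [wm, Matrix.of_apply, Matrix.map_apply]
  rw [← mul_assoc]
  conv_lhs => rw [← e.sum_repr (r * e j)]
  rw [Finset.sum_mul]
  refine Finset.sum_congr rfl fun k _ => ?_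
  rw [Algebra.leftMulMatrix_eq_repr_mul, ← Algebra.commutes, ← Algebra.smul_def, smul_mul_assoc]

end

theorem s_AZU : S_AZU := by
  classical
  intro C R _ _ _ _ _ _
  have hfin : Module.Finite C R := IsAzumaya.toFinite
  have hbij : Function.Bijective (AlgHom.mulLeftRight C R) := IsAzumaya.bij
  have hfs : FaithfulSMul C R := inferInstance
  have hnt : Nontrivial R := (FaithfulSMul.algebraMap_injective C R).nontrivial
  let e := Module.Free.chooseBasis C R
  let X := Module.Free.ChooseBasisIndex C R
  have hX : Nonempty X := e.index_nonempty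
  have h1 : ∀ l : X, ∃ v : X → R, ∀ x : R, e.repr x l • (1 : R) = ∑ i, v i * x * e i := by
    intro l
    obtain ⟨t, ht⟩ := hbij.2 ((LinearMap.toSpanSingleton C R 1).comp (e.coord l))
    obtain ⟨v, hv⟩ := form e t
    refine ⟨v, fun x => ?_⟩
    rw [← hv, ht]
    rfl
  choose V hV using h1
  have h2 : Matrix.of V * wm e = 1 := by
    ext l j
    rw [Matrix.mul_apply]
    simp only [Matrix.of_apply, wm]
    have := hV l (e j)
    rw [e.repr_self, Finsupp.single_apply] at this
    rw [Matrix.one_apply]
    calc ∑ i, V l i * (e j * e i) = ∑ i, V l i * e j * e i :=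
          Finset.sum_congr rfl fun i _ => (mul_assoc _ _ _).symm
      _ = (if j = l then (1 : C) else 0) • (1 : R) := this.symm
      _ = if l = j then 1 else 0 := by
          by_cases h : l = j
          · subst h
            simp
          · rw [if_neg h, if_neg (Ne.symm h), zero_smul]
  have h3 : wm e * Matrix.of V = 1 := by
    let f : Matrix X X R →ₗ[C] Matrix X X R :=
      { toFun := fun m => Matrix.of V * m
        map_add' := fun a b => mul_add _ _ _
        map_smul' := fun c m => by
          rw [RingHom.id_apply, Matrix.mul_smul] }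
    have hs : Function.Surjective f := fun m => ⟨wm e * m, by
      show Matrix.of V * (wm e * m) = m
      rw [← mul_assoc, h2, one_mul]⟩
    have hi : Function.Injective f := OrzechProperty.injective_of_surjective_endomorphism f hs
    apply hi
    show Matrix.of V * (wm e * Matrix.of V) = Matrix.of V * 1
    rw [← mul_assoc, h2, one_mul, mul_one]
  refine ⟨X, inferInstance, inferInstance, hX, (Algebra.leftMulMatrix e).toRingHom, Matrix.of V,
    wm e, h2, h3, fun r => ?_⟩
  show (Algebra.leftMulMatrix e r).map (algebraMap C R) = _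
  rw [mul_assoc, wm_mul, ← mul_assoc, h2, one_mul]

end Pool.Agent.L7h42.NC
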